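import Pool.Agent.L0h31.GT.Stm

/-!
# Project GT: BOX and SCL
-/

set_option autoImplicit false
set_option linter.all false

open MeasureTheory Filter Topology

namespace Pool.Agent.L0h56.GT

open Pool.Agent.L0h31.GT

section

variable {ι : Type} [Fintype ι] [DecidableEq ι]

lemma pd_cont {f : (ι → ℝ) → ℝ} (hf : ContDiff ℝ 1 f) (a : ι) : Continuous (pd f a) := by
  unfold pd
  exact (hf.continuous_fderiv one_ne_zero).clm_apply continuous_const

lemma isClosed_OB (R : ι → ι → Prop) (a b : ι → ℝ) : IsClosed (OB R a b) := by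
  have h : OB R a b = (⋂ i, {x : ι → ℝ | a i ≤ x i ∧ x i ≤ b i}) ∩ ⋂ i, ⋂ j, {x : ι → ℝ | R i j → x i ≤ x j} := by
    ext x
    simp only [OB, Set.mem_setOf_eq, Set.mem_inter_iff, Set.mem_iInter]
  rw [h]
  apply IsClosed.inter
  · exact isClosed_iInter fun i => (isClosed_le continuous_const (continuous_apply i)).inter
      (isClosed_le (continuous_apply i) continuous_const)
  · refine isClosed_iInter fun i => isClosed_iInter fun j => ?_
    by_cases hR : R i j
    · simp only [hR, true_imp_iff]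
      exact isClosed_le (continuous_apply i) (continuous_apply j)
    · simp only [hR, false_imp_iff, Set.setOf_true]
      exact isClosed_univ

lemma isCompact_OB (R : ι → ι → Prop) (a b : ι → ℝ) : IsCompact (OB R a b) := by
  apply IsCompact.of_isClosed_subset (isCompact_univ_pi fun i : ι => isCompact_Icc (a := a i) (b := b i))
    (isClosed_OB R a b)
  intro x hx i _
  exact hx.1 i

lemma isCompact_Ch_meas (a b : ι → ℝ) (N : ℕ) :
    MeasurableSet {p : (ι → ℝ) × (Fin N → ℝ) | p.2 ∈ Ch a b N p.1} := by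
  have h : {p : (ι → ℝ) × (Fin N → ℝ) | p.2 ∈ Ch a b N p.1} =
      (⋂ j, {p : (ι → ℝ) × (Fin N → ℝ) | 0 ≤ p.2 j ∧ p.2 j ≤ 1}) ∩
      ((⋂ j, ⋂ k, {p : (ι → ℝ) × (Fin N → ℝ) | j ≤ k → p.2 j ≤ p.2 k}) ∩
      ⋂ i, ⋂ j : Fin N, {p : (ι → ℝ) × (Fin N → ℝ) | (N * b i ≤ (j : ℝ) → p.1 i ≤ p.2 j) ∧
        ((j : ℝ) + 1 ≤ N * a i → p.2 j ≤ p.1 i)}) := by
    ext p
    simp only [Ch, Set.mem_setOf_eq, Set.mem_inter_iff, Set.mem_iInter]
  rw [h]
  have hm : ∀ j : Fin N, Measurable fun p : (ι → ℝ) × (Fin N → ℝ) => p.2 j := fun j =>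
    (measurable_pi_apply j).comp measurable_snd
  have hm1 : ∀ i : ι, Measurable fun p : (ι → ℝ) × (Fin N → ℝ) => p.1 i := fun i =>
    (measurable_pi_apply i).comp measurable_fst
  have himp : ∀ (P : Prop) (f g : (ι → ℝ) × (Fin N → ℝ) → ℝ), Measurable f → Measurable g →
      MeasurableSet {p : (ι → ℝ) × (Fin N → ℝ) | P → f p ≤ g p} := by
    intro P f g hf hg
    by_cases hP : P
    · simp only [hP, true_imp_iff]
      exact measurableSet_le hf hg
    · simp only [hP, false_imp_iff, Set.setOf_true]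
      exact MeasurableSet.univ
  refine (MeasurableSet.iInter fun j => ?_).inter ((MeasurableSet.iInter fun j => MeasurableSet.iInter fun k => ?_).inter
    (MeasurableSet.iInter fun i => MeasurableSet.iInter fun j => ?_))
  · exact (measurableSet_le measurable_const (hm j)).inter (measurableSet_le (hm j) measurable_const)
  · exact himp _ _ _ (hm j) (hm k)
  · exact (himp _ _ _ (hm1 i) (hm j)).inter (himp _ _ _ (hm j) (hm1 i))

lemma meas_Ch (a b : ι → ℝ) (N : ℕ) : Measurable fun x : ι → ℝ => (volume (Ch a b N x)).toReal :=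
  (measurable_measure_prodMk_left (isCompact_Ch_meas a b N)).ennreal_toReal

/-- the limit of the weighted integrals -/
lemma lim_int (h2 : S_CHN) (R : ι → ι → Prop) (a b : ι → ℝ) (hab : ∀ i, 0 ≤ a i ∧ a i ≤ b i ∧ b i ≤ 1)
    {F : (ι → ℝ) → ℝ} (hF : Continuous F) :
    Tendsto (fun N : ℕ => (N.factorial : ℝ) * ∫ x in OB R (fun _ => 0) (fun _ => 1), F x * (volume (Ch a b N x)).toReal)
      atTop (𝓝 (∫ x in OB R a b, F x)) := by
  obtain ⟨c1, c2, c3⟩ := h2 ι a b hab
  set K0 := OB R (fun _ : ι => (0 : ℝ)) (fun _ => 1) with hK0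
  have hcomp : IsCompact K0 := isCompact_OB _ _ _
  have hsub : OB R a b ⊆ K0 := by
    intro x hx
    exact ⟨fun i => ⟨(hab i).1.trans (hx.1 i).1, (hx.1 i).2.trans (hab i).2.2⟩, hx.2⟩
  have hmeas : MeasurableSet (OB R a b) := (isClosed_OB R a b).measurableSet
  have e1 : ∫ x in OB R a b, F x = ∫ x in K0, (OB R a b).indicator F x := by
    rw [setIntegral_indicator hmeas, Set.inter_eq_self_of_subset_right hsub]
  rw [e1]
  have e2 : ∀ N : ℕ, (N.factorial : ℝ) * ∫ x in K0, F x * (volume (Ch a b N x)).toReal =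
      ∫ x in K0, F x * ((N.factorial : ℝ) * (volume (Ch a b N x)).toReal) := by
    intro N
    rw [← integral_const_mul]
    congr 1
    funext x
    ring
  simp only [e2]
  apply tendsto_integral_of_dominated_convergence (fun x => |F x|)
  · intro N
    exact (hF.measurable.mul (measurable_const.mul (meas_Ch a b N))).aestronglyMeasurable
  · exact (hF.abs.continuousOn.integrableOn_compact hcomp)
  · intro N
    refine Eventually.of_forall fun x => ?_
    rw [Real.norm_eq_abs, abs_mul]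
    have h1 : |(N.factorial : ℝ) * (volume (Ch a b N x)).toReal| ≤ 1 := by
      rw [abs_of_nonneg (by positivity)]
      exact c1 N x
    calc |F x| * |(N.factorial : ℝ) * (volume (Ch a b N x)).toReal| ≤ |F x| * 1 := by gcongr
      _ = |F x| := mul_one _
  · have hnull : ∀ i : ι, ∀ c : ℝ, ∀ᵐ x : ι → ℝ ∂(volume.restrict K0), x i ≠ c := by
      intro i c
      apply ae_restrict_of_ae
      rw [ae_iff]
      simp only [ne_eq, not_not]
      exact Measure.pi_hyperplane (fun _ : ι => (volume : Measure ℝ)) i c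
    have hn1 : ∀ᵐ x : ι → ℝ ∂(volume.restrict K0), ∀ i, x i ≠ a i := ae_all_iff.2 fun i => hnull i _
    have hn2 : ∀ᵐ x : ι → ℝ ∂(volume.restrict K0), ∀ i, x i ≠ b i := ae_all_iff.2 fun i => hnull i _
    have hK : ∀ᵐ x : ι → ℝ ∂(volume.restrict K0), x ∈ K0 := ae_restrict_mem hcomp.isClosed.measurableSet
    filter_upwards [hn1, hn2, hK] with x hx1 hx2 hx3
    by_cases hx : ∀ i, a i < x i ∧ x i < b i
    · have hm : x ∈ OB R a b := ⟨fun i => ⟨(hx i).1.le, (hx i).2.le⟩, hx3.2⟩
      rw [Set.indicator_of_mem hm]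
      have := (c2 x hx).const_mul (F x)
      rwa [mul_one] at this
    · push Not at hx
      obtain ⟨i, hi⟩ := hx
      have hi' : x i < a i ∨ b i < x i := by
        rcases lt_trichotomy (x i) (a i) with h | h | h
        · exact Or.inl h
        · exact absurd h (hx1 i)
        · exact Or.inr (lt_of_le_of_ne (hi h) (hx2 i).symm)
      have hm : x ∉ OB R a b := by
        intro hm
        have := hm.1 i
        rcases hi' with h | h <;> linarith
      rw [Set.indicator_of_notMem hm]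
      have := (c3 x (fun i => hx3.1 i) ⟨i, hi'⟩).const_mul (F x)
      rwa [mul_zero] at this

/-- the projection -/
noncomputable def Pr (ι : Type) [Fintype ι] (N : ℕ) : (ι ⊕ Fin N → ℝ) →L[ℝ] (ι → ℝ) :=
  ContinuousLinearMap.pi fun i => ContinuousLinearMap.proj (Sum.inl i)

lemma Pr_apply (N : ℕ) (x : ι ⊕ Fin N → ℝ) : Pr ι N x = fun i => x (Sum.inl i) := rfl

lemma Pr_inl (N : ℕ) (i : ι) : Pr ι N (Pi.single (Sum.inl i) 1) = Pi.single i 1 := by
  funext j
  rw [Pr_apply]
  by_cases h : j = i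
  · subst h
    simp
  · rw [Pi.single_eq_of_ne h]
    show (Pi.single (Sum.inl i) 1 : ι ⊕ Fin N → ℝ) (Sum.inl j) = 0
    rw [Pi.single_eq_of_ne]
    intro h'
    exact h (Sum.inl.inj h')

lemma Pr_inr (N : ℕ) (i : Fin N) : Pr ι N (Pi.single (Sum.inr i) 1) = 0 := by
  funext j
  rw [Pr_apply]
  simp

lemma sum_pd {f : (ι → ℝ) → ℝ} (hf : ContDiff ℝ 1 f) (N : ℕ) (x : ι ⊕ Fin N → ℝ) :
    ∑ c, pd (fun x : ι ⊕ Fin N → ℝ => f (fun i => x (Sum.inl i))) c x ^ 2 =
      ∑ i, pd f i (fun i => x (Sum.inl i)) ^ 2 := by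
  have hd : DifferentiableAt ℝ f (Pr ι N x) := (hf.differentiable one_ne_zero).differentiableAt
  have h1 : fderiv ℝ (fun x : ι ⊕ Fin N → ℝ => f (fun i => x (Sum.inl i))) x =
      (fderiv ℝ f (Pr ι N x)).comp (Pr ι N) := by
    have := (hd.hasFDerivAt.comp x (Pr ι N).hasFDerivAt).fderiv
    exact this
  rw [Fintype.sum_sum_type]
  have e1 : ∀ i : ι, pd (fun x : ι ⊕ Fin N → ℝ => f (fun i => x (Sum.inl i))) (Sum.inl i) x =
      pd f i (fun i => x (Sum.inl i)) := by
    intro i
    unfold pd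
    rw [h1, ContinuousLinearMap.comp_apply, Pr_inl]
    rfl
  have e2 : ∀ i : Fin N, pd (fun x : ι ⊕ Fin N → ℝ => f (fun i => x (Sum.inl i))) (Sum.inr i) x = 0 := by
    intro i
    unfold pd
    rw [h1, ContinuousLinearMap.comp_apply, Pr_inr, map_zero]
  simp only [e1, e2]
  simp

end

theorem t_BOX (h1 : S_OPK) (h2 : S_CHN) (h3 : S_FUB) : S_BOX := by
  intro ι _ _ R a b hab f hf
  by_cases hne : ∀ i, a i ≤ b i
  swap
  · push Not at hne
    obtain ⟨i, hi⟩ := hne
    have he : OB R a b = ∅ := by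
      rw [Set.eq_empty_iff_forall_notMem]
      intro x hx
      have := hx.1 i
      linarith
    rw [he]
    simp
  have hab' : ∀ i, 0 ≤ a i ∧ a i ≤ b i ∧ b i ≤ 1 := fun i => ⟨(hab i).1, hne i, (hab i).2⟩
  have hc : Continuous f := hf.continuous
  have hg : Continuous fun x => ∑ i, pd f i x ^ 2 := continuous_finsetSum _ fun i _ => (pd_cont hf i).pow 2
  have l1 := lim_int h2 R a b hab' (F := fun x => f x ^ 2) (hc.pow 2)
  have l2 := lim_int h2 R a b hab' (F := fun _ => 1) continuous_const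
  have l3 := lim_int h2 R a b hab' hc
  have l4 := lim_int h2 R a b hab' hg
  have e1 : (volume (OB R a b)).toReal = ∫ x in OB R a b, (1 : ℝ) := by
    rw [setIntegral_const]
    simp [Measure.real]
  rw [e1]
  have L := (l1.mul l2).sub (l3.pow 2)
  have Rr := (l2.const_mul (1 / Real.pi ^ 2)).mul l4
  refine le_of_tendsto_of_tendsto' L Rr fun N => ?_
  have hP := h1 (ι ⊕ Fin N) (RN R a b N) (fun x => f (fun i => x (Sum.inl i)))
    (hf.comp (Pr ι N).contDiff)
  have e2 : (volume (OB (RN R a b N) (fun _ => (0 : ℝ)) (fun _ => 1))).toReal =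
      ∫ x in OB (RN R a b N) (fun _ => (0 : ℝ)) (fun _ => 1), (1 : ℝ) := by
    rw [setIntegral_const]
    simp [Measure.real]
  rw [e2] at hP
  simp only [sum_pd hf] at hP
  rw [h3 ι R a b N (fun x => f x ^ 2) (hc.pow 2), h3 ι R a b N f hc, h3 ι R a b N (fun _ => 1) continuous_const,
    h3 ι R a b N (fun x => ∑ i, pd f i x ^ 2) hg] at hP
  have hN : (0 : ℝ) ≤ (N.factorial : ℝ) ^ 2 := by positivity
  have := mul_le_mul_of_nonneg_left hP hN
  calc _ = (N.factorial : ℝ) ^ 2 * ((∫ x in OB R (fun _ => 0) (fun _ => 1), f x ^ 2 * (volume (Ch a b N x)).toReal) *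
        (∫ x in OB R (fun _ => 0) (fun _ => 1), 1 * (volume (Ch a b N x)).toReal) -
        (∫ x in OB R (fun _ => 0) (fun _ => 1), f x * (volume (Ch a b N x)).toReal) ^ 2) := by ring
    _ ≤ _ := this
    _ = _ := by ring

section

variable {ι : Type} [Fintype ι] [DecidableEq ι]

/-- the change of variables -/
lemma int_scale (R : ι → ι → Prop) (a b : ι → ℝ) {A D : ℝ} (hD : 0 < D) (F : (ι → ℝ) → ℝ) :
    ∫ y in OB R (fun i => (a i - A) / D) (fun i => (b i - A) / D), F (fun i => A + D * y i) =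
      (D ^ (Module.finrank ℝ (ι → ℝ)))⁻¹ * ∫ x in OB R a b, F x := by
  rw [← integral_indicator (isClosed_OB _ _ _).measurableSet, ← integral_indicator (isClosed_OB _ _ _).measurableSet]
  have h1 := Measure.integral_comp_smul_of_nonneg (μ := (volume : Measure (ι → ℝ)))
    (fun x => (OB R a b).indicator F ((fun _ => A) + x)) D (hR := hD.le)
  rw [integral_add_left_eq_self (μ := (volume : Measure (ι → ℝ))) ((OB R a b).indicator F) (fun _ => A)] at h1
  rw [smul_eq_mul] at h1
  rw [← h1]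
  congr 1
  funext y
  have e : (fun _ => A) + D • y = fun i => A + D * y i := by
    funext i
    simp
  rw [e]
  have hiff : y ∈ OB R (fun i => (a i - A) / D) (fun i => (b i - A) / D) ↔ (fun i => A + D * y i) ∈ OB R a b := by
    simp only [OB, Set.mem_setOf_eq]
    have e1 : ∀ i, (a i - A) / D ≤ y i ↔ a i ≤ A + D * y i := fun i => by
      rw [div_le_iff₀ hD]
      constructor <;> intro h <;> linarith
    have e2 : ∀ i, y i ≤ (b i - A) / D ↔ A + D * y i ≤ b i := fun i => by
      rw [le_div_iff₀ hD]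
      constructor <;> intro h <;> linarith
    have e3 : ∀ i j, y i ≤ y j ↔ A + D * y i ≤ A + D * y j := fun i j => by
      rw [add_le_add_iff_left, mul_le_mul_iff_right₀ hD]
    simp only [e1, e2, e3]
  by_cases h : y ∈ OB R (fun i => (a i - A) / D) (fun i => (b i - A) / D)
  · rw [Set.indicator_of_mem h, Set.indicator_of_mem (hiff.1 h)]
  · rw [Set.indicator_of_notMem h, Set.indicator_of_notMem (fun h' => h (hiff.2 h'))]

lemma pd_scale {f : (ι → ℝ) → ℝ} (hf : ContDiff ℝ 1 f) (A D : ℝ) (i : ι) (y : ι → ℝ) :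
    pd (fun y : ι → ℝ => f (fun i => A + D * y i)) i y = D * pd f i (fun i => A + D * y i) := by
  set φ : (ι → ℝ) → (ι → ℝ) := fun y i => A + D * y i with hφ
  have hd : DifferentiableAt ℝ f (φ y) := (hf.differentiable one_ne_zero).differentiableAt
  have h2 : HasFDerivAt φ (D • ContinuousLinearMap.id ℝ (ι → ℝ)) y := by
    have h3 : φ = fun y => (fun _ => A) + D • y := by
      funext y i
      simp [hφ]
    rw [h3]
    exact ((hasFDerivAt_id y).const_smul D).const_add _
  have h1 : fderiv ℝ (fun y : ι → ℝ => f (φ y)) y = (fderiv ℝ f (φ y)).comp (D • ContinuousLinearMap.id ℝ (ι → ℝ)) :=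
    (hd.hasFDerivAt.comp y h2).fderiv
  unfold pd
  show (fderiv ℝ (fun y : ι → ℝ => f (φ y)) y) (Pi.single i 1) = D * (fderiv ℝ f (φ y)) (Pi.single i 1)
  rw [h1]
  simp

end

theorem t_SCL (h : S_BOX) : S_SCL := by
  intro ι _ _ R a b A B hAB hab f hf
  obtain ⟨D, hD⟩ : ∃ D, D = B - A := ⟨_, rfl⟩
  have hD0 : 0 < D := by rw [hD]; linarith
  have hφ : ContDiff ℝ 1 fun y : ι → ℝ => fun i => A + D * y i := by
    rw [contDiff_pi]
    intro i
    exact contDiff_const.add (contDiff_const.mul (contDiff_apply ℝ ℝ i))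
  have hP := h ι R (fun i => (a i - A) / D) (fun i => (b i - A) / D) (fun i => ⟨by
      have := (hab i).1
      have h1 : 0 ≤ a i - A := by linarith
      positivity, by
      rw [div_le_one hD0, hD]
      have := (hab i).2
      linarith⟩) (fun y => f (fun i => A + D * y i)) (hf.comp hφ)
  have e2 : (volume (OB R (fun i => (a i - A) / D) (fun i => (b i - A) / D))).toReal =
      ∫ x in OB R (fun i => (a i - A) / D) (fun i => (b i - A) / D), (1 : ℝ) := by
    rw [setIntegral_const]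
    simp [Measure.real]
  have e1 : (volume (OB R a b)).toReal = ∫ x in OB R a b, (1 : ℝ) := by
    rw [setIntegral_const]
    simp [Measure.real]
  simp only [pd_scale hf] at hP
  rw [e2, int_scale R a b hD0 (fun x => f x ^ 2), int_scale R a b hD0 f, int_scale R a b hD0 (fun _ => (1 : ℝ)),
    int_scale R a b hD0 (fun x => ∑ i, (D * pd f i x) ^ 2)] at hP
  have e3 : ∫ x in OB R a b, ∑ i, (D * pd f i x) ^ 2 = D ^ 2 * ∫ x in OB R a b, ∑ i, pd f i x ^ 2 := by
    rw [← integral_const_mul]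
    congr 1
    funext x
    rw [Finset.mul_sum]
    exact Finset.sum_congr rfl fun i _ => by ring
  rw [e3] at hP
  rw [e1, ← hD]
  set c : ℝ := (D ^ (Module.finrank ℝ (ι → ℝ)))⁻¹ with hc
  have hc0 : 0 < c := by positivity
  have key : c ^ 2 * ((∫ x in OB R a b, f x ^ 2) * (∫ x in OB R a b, (1 : ℝ)) - (∫ x in OB R a b, f x) ^ 2) ≤
      c ^ 2 * (D ^ 2 / Real.pi ^ 2 * (∫ x in OB R a b, (1 : ℝ)) * ∫ x in OB R a b, ∑ i, pd f i x ^ 2) := by
    calc _ = c * (∫ x in OB R a b, f x ^ 2) * (c * ∫ x in OB R a b, (1 : ℝ)) - (c * ∫ x in OB R a b, f x) ^ 2 := by ring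
      _ ≤ _ := hP
      _ = _ := by ring
  exact le_of_mul_le_mul_left key (by positivity)

end Pool.Agent.L0h56.GT
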